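import Pool.Agent.Lib.MP_4d246d_lc.Blind.Geo

/-!
# For a fixed matrix the programs with a given view at a given name form a product of convex sets
-/

namespace Pool.Agent.Simplex.Tableau

open Matrix Pool.Agent.Simplex.CI Pool.Agent.MP4d246d.Blind

namespace LP

variable {m n : ℕ} {A : Matrix (Fin m) (Fin n) ℝ} {b b' : Fin m → ℝ} {c c' : Fin n → ℝ}

/-- the linear program with the data `A`, `b`, `c` -/
abbrev L (A : Matrix (Fin m) (Fin n) ℝ) (b : Fin m → ℝ) (c : Fin n → ℝ) : LP m n := ⟨A, b, c⟩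

/-- an improving elementary direction at a vertex where the method does not stop gives an edge -/
theorem exists_edge {P : LP m n} {x z : Fin n → ℝ} (hx : P.Vertex x) (hf : ¬ P.Final x)
    (hz : ElemAt P.A P.b x z) (hle : ∀ l, P.A l ⬝ᵥ x = P.b l → P.A l ⬝ᵥ z ≤ 0)
    (hc : 0 < P.c ⬝ᵥ z) : ∃ t : ℝ, 0 < t ∧ P.Improving x (x + t • z) := by
  rcases edge_end (P.vertex_vtx.1 hx) hle hz with h | ⟨t, ht, hE⟩
  · exact absurd ⟨hx, Or.inr ⟨hx, z, hc, ray_extreme (P.vertex_vtx.1 hx) hc h hz.2⟩⟩ hf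
  · refine ⟨t, ht, ⟨hx, P.vertex_vtx.2 hE.vtx', ?_, hE.extreme⟩, ?_⟩
    · intro h
      apply hE.ne
      rw [← h, sub_self]
    · rw [obj_eq, obj_eq, dotProduct_add, dotProduct_smul, smul_eq_mul]
      have := mul_pos ht hc
      linarith

/-- at most one edge in each direction -/
theorem edge_unique {P : LP m n} {x z : Fin n → ℝ} {t t' : ℝ} (ht : 0 < t)
    (h : P.Vertex (x + t • z)) (hne : x ≠ x + t • z) (hx : x ∈ P.feasible)
    (h' : x + t' • z ∈ P.feasible) : t' ≤ t := by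
  by_contra hlt
  push Not at hlt
  apply hne
  have hv := P.vertex_vtx.1 h
  have hz : z = 0 := hv.2 z fun l hl => by
    have h1 : P.A l ⬝ᵥ x ≤ P.b l := hx l
    have h2 : P.A l ⬝ᵥ (x + t' • z) ≤ P.b l := h' l
    rw [dotProduct_add, dotProduct_smul, smul_eq_mul] at hl h2
    have h3 : 0 ≤ t * (P.A l ⬝ᵥ z) := by linarith
    have h4 : (t' - t) * (P.A l ⬝ᵥ z) ≤ 0 := by linarith
    have h5 : 0 ≤ P.A l ⬝ᵥ z := nonneg_of_mul_nonneg_right h3 ht
    have h6 : P.A l ⬝ᵥ z ≤ 0 := nonpos_of_mul_nonpos_right h4 (sub_pos.2 hlt)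
    exact le_antisymm h6 h5
  rw [hz, smul_zero, add_zero]

theorem tight_congr {P P' : LP m n} {x x' : Fin n → ℝ} (h : P'.tight x' = P.tight x) (l : Fin m) :
    P'.A l ⬝ᵥ x' = P'.b l ↔ P.A l ⬝ᵥ x = P.b l := by
  rw [← mem_tight, ← mem_tight, h]

/-- directions of edges are directions of edges at each vertex with the same name -/
theorem Edge.elem {P P' : LP m n} (hA : P'.A = P.A) {x y x' : Fin n → ℝ}
    (hE : P.Edge x y) (hxx : P'.tight x' = P.tight x) :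
    ElemAt P'.A P'.b x' (y - x) ∧ ∀ l, P'.A l ⬝ᵥ x' = P'.b l → P'.A l ⬝ᵥ (y - x) ≤ 0 := by
  have h := Edge.edg hE
  refine ⟨⟨h.ne, fun q hq => ?_⟩, fun l hl => ?_⟩
  · refine h.one q fun l hl h0 => ?_
    have := hq l ((tight_congr hxx l).2 hl) (by rw [hA]; exact h0)
    rwa [hA] at this
  · rw [hA]
    exact tight_le h.vtx'.1 ((tight_congr hxx l).1 hl)

/-- the same for rays -/
theorem Ray.elem {P P' : LP m n} (hA : P'.A = P.A) {x z x' : Fin n → ℝ} (hx' : P'.Vertex x')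
    (hx : P.Vertex x) (hxx : P'.tight x' = P.tight x)
    (hext : IsExtreme ℝ P.feasible {w | ∃ s : ℝ, 0 ≤ s ∧ w = x + s • z}) (hc : 0 < P'.obj z) :
    P'.Unbounded x' := by
  obtain ⟨h1, h2⟩ := ray_dir hx hext
  refine ⟨hx', z, hc, ray_extreme (P'.vertex_vtx.1 hx') hc (fun l => by rw [hA]; exact h1 l)
    fun q hq => h2 q fun l hl h0 => ?_⟩
  have := hq l ((tight_congr hxx l).2 hl) (by rw [hA]; exact h0)
  rwa [hA] at this

/-- edges with the same names have the same direction -/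
theorem Edge.parallel {P P' : LP m n} (hA : P'.A = P.A) {x y x' y' : Fin n → ℝ}
    (hE : P.Edge x y) (hE' : P'.Edge x' y') (hxx : P'.tight x' = P.tight x)
    (hyy : P'.tight y' = P.tight y) : ∃ t : ℝ, 0 < t ∧ y' - x' = t • (y - x) := by
  have h := Edge.edg hE
  have h' := Edge.edg hE'
  obtain ⟨t, ht⟩ := h.one (y' - x') fun l hl h0 => by
    have h1 := (tight_congr hxx l).2 hl
    have h2 : P.A l ⬝ᵥ y = P.b l := by
      rw [dotProduct_sub] at h0
      linarith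
    have h3 := (tight_congr hyy l).2 h2
    rw [← hA, dotProduct_sub, h1, h3, sub_self]
  refine ⟨t, ?_, ht⟩
  obtain ⟨i, hi, hneg⟩ := exists_left h.vtx h.vtx'.1 h.ne
  have h1 := (tight_congr hxx i).2 hi
  have h2 : ¬ P'.A i ⬝ᵥ y' = P'.b i := by
    rw [tight_congr hyy i]
    intro h2
    rw [dotProduct_sub, h2, hi, sub_self] at hneg
    exact lt_irrefl _ hneg
  have h3 := tight_le h'.vtx'.1 h1
  have h4 : P'.A i ⬝ᵥ (y' - x') ≠ 0 := by
    intro h0
    rw [dotProduct_sub, h1] at h0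
    exact h2 (by linarith)
  have h5 := lt_of_le_of_ne h3 h4
  rw [ht, hA, dotProduct_smul, smul_eq_mul] at h5
  by_contra hle
  push Not at hle
  have := mul_nonneg_of_nonpos_of_nonpos hle hneg.le
  linarith

/-- the end of an edge is determined by its direction -/
theorem Edge.end_eq {P : LP m n} {x y y' : Fin n → ℝ} {t : ℝ} (ht : 0 < t)
    (hE : P.Edge x y) (hE' : P.Edge x y') (h : y' - x = t • (y - x)) : y' = y := by
  have e1 : x + (1 : ℝ) • (y - x) = y := by rw [one_smul]; abel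
  have e2 : x + t • (y - x) = y' := by rw [← h]; abel
  have h1 : t ≤ 1 := edge_unique (P := P) (x := x) (z := y - x) one_pos (by rw [e1]; exact hE.2.1)
    (by rw [e1]; exact hE.2.2.1) hE.1.1 (by rw [e2]; exact hE'.2.1.1)
  have h2 : 1 ≤ t := edge_unique (P := P) (x := x) (z := y - x) ht (by rw [e2]; exact hE'.2.1)
    (by rw [e2]; exact hE'.2.2.1) hE.1.1 (by rw [e1]; exact hE.2.1.1)
  have h3 : t = 1 := le_antisymm h1 h2
  rw [h3, one_smul] at h
  have := sub_left_inj.1 h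
  exact this

/-- the method does not stop at a vertex with improving edges and without improving rays -/
theorem not_final {P : LP m n} {x : Fin n → ℝ} (hv : (P.view x).Nonempty)
    (hu : ¬ P.Unbounded x) : ¬ P.Final x := by
  rintro ⟨_, ho | hu'⟩
  · obtain ⟨T, hT⟩ := hv
    obtain ⟨y, hy, _⟩ := mem_view.1 hT
    exact absurd hy.2 (not_lt.2 (ho.2 y hy.1.2.1.1))
  · exact hu hu'

theorem of_nview {P : LP m n} {T : Name m} {S : Finset (Name m)} (hS : S.Nonempty)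
    (h : P.nview T = S) : ∃ x, P.Vertex x ∧ ¬ P.Final x ∧ P.tight x = T ∧ P.view x = S := by
  obtain ⟨N, hN⟩ := hS
  rw [← h] at hN
  obtain ⟨x, hx, hf, rfl, hN⟩ := mem_nview.1 hN
  exact ⟨x, hx, hf, rfl, (nview_tight hx hf).symm.trans h⟩

/-- **The cross lemma.** -/
theorem nview_cross {T : Name m} {S : Finset (Name m)} (hS : S.Nonempty)
    (h : (L A b c).nview T = S) (h' : (L A b' c').nview T = S) : (L A b c').nview T = S := by
  obtain ⟨x, hx, hf, hxT, hv⟩ := of_nview hS h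
  obtain ⟨x', hx', hf', hxT', hv'⟩ := of_nview hS h'
  have hQ : (L A b c').Vertex x := hx
  have hxx : (L A b' c').tight x' = (L A b c).tight x := by rw [hxT, hxT']
  -- the view
  have hview : (L A b c').view x = S := by
    ext N
    constructor
    · intro hN
      obtain ⟨y, hy, rfl⟩ := mem_view.1 hN
      have hE : (L A b c).Edge x y := hy.1
      obtain ⟨h1, h2⟩ := Edge.elem (P := L A b c) (P' := L A b' c') rfl hE hxx
      have h3 : 0 < c' ⬝ᵥ (y - x) := by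
        have : c' ⬝ᵥ x < c' ⬝ᵥ y := hy.2
        rw [dotProduct_sub]
        linarith
      obtain ⟨t, ht, hI⟩ := exists_edge hx' hf' h1 h2 h3
      have hN' : (L A b' c').tight (x' + t • (y - x)) ∈ (L A b c).view x := by
        rw [hv, ← hv']
        exact mem_view.2 ⟨_, hI, rfl⟩
      obtain ⟨y₂, hy₂, hy₂t⟩ := mem_view.1 hN'
      obtain ⟨s, hs, hpar⟩ := Edge.parallel (P := L A b c) (P' := L A b' c') rfl hy₂.1 hI.1 hxx
        hy₂t.symm
      have hyy : y₂ = y := by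
        refine Edge.end_eq (P := L A b c) (t := t / s) (by positivity) hE hy₂.1 ?_
        have : x' + t • (y - x) - x' = t • (y - x) := by abel
        rw [this] at hpar
        rw [div_eq_inv_mul, mul_smul, hpar, smul_smul, inv_mul_cancel₀ hs.ne', one_smul]
      rw [← hv]
      refine mem_view.2 ⟨y, ?_, rfl⟩
      rw [← hyy]
      exact hy₂
    · intro hN
      have h1 := hN
      rw [← hv] at h1
      have h2 := hN
      rw [← hv'] at h2
      obtain ⟨y, hy, rfl⟩ := mem_view.1 h1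
      obtain ⟨y', hy', hyy⟩ := mem_view.1 h2
      obtain ⟨t, ht, hpar⟩ := Edge.parallel (P := L A b c) (P' := L A b' c') rfl hy.1 hy'.1 hxx hyy
      have h3 : c' ⬝ᵥ x' < c' ⬝ᵥ y' := hy'.2
      have h4 : 0 < c' ⬝ᵥ (y' - x') := by
        rw [dotProduct_sub]
        linarith
      rw [hpar, dotProduct_smul, smul_eq_mul] at h4
      have h5 : 0 < c' ⬝ᵥ (y - x) := (mul_pos_iff_of_pos_left ht).1 h4
      rw [dotProduct_sub] at h5
      exact mem_view.2 ⟨y, ⟨hy.1, by show c' ⬝ᵥ x < c' ⬝ᵥ y; linarith⟩, rfl⟩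
  have hnf : ¬ (L A b c').Final x := by
    refine not_final (by rw [hview]; exact hS) ?_
    rintro ⟨_, z, hz, hext⟩
    exact hf' ⟨hx', Or.inr (Ray.elem (P := L A b c') (P' := L A b' c') rfl hx' hQ hxx hext hz)⟩
  have h6 : (L A b c').tight x = T := hxT
  rw [← h6, nview_tight hQ hnf, hview]

/-- convexity in the objective -/
theorem nview_convex_c {T : Name m} {S : Finset (Name m)} (hS : S.Nonempty) :
    Convex ℝ {c | (L A b c).nview T = S} := by
  intro c₁ h₁ c₂ h₂ s t hs ht hst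
  obtain ⟨x, hx, hf, hxT, hv⟩ := of_nview hS h₁
  obtain ⟨x', hx', hf', hxT', hv'⟩ := of_nview hS h₂
  obtain rfl : x = x' := eq_of_tight (P := L A b c₁) hx (by
    show (L A b c₁).tight x ⊆ (L A b c₂).tight x'
    rw [hxT, hxT'])
  set c₃ := s • c₁ + t • c₂ with hc₃
  have hdot : ∀ z, c₃ ⬝ᵥ z = s * (c₁ ⬝ᵥ z) + t * (c₂ ⬝ᵥ z) := fun z => by
    rw [hc₃, add_dotProduct, smul_dotProduct, smul_dotProduct, smul_eq_mul, smul_eq_mul]
  have hpos : ∀ z, 0 < c₁ ⬝ᵥ z → 0 < c₂ ⬝ᵥ z → 0 < c₃ ⬝ᵥ z := by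
    intro z h1 h2
    rw [hdot]
    rcases hs.eq_or_lt with h3 | h3
    · have : t = 1 := by linarith
      rw [← h3, this]
      linarith
    · have h4 := mul_pos h3 h1
      have h5 := mul_nonneg ht h2.le
      linarith
  have hor : ∀ z, 0 < c₃ ⬝ᵥ z → 0 < c₁ ⬝ᵥ z ∨ 0 < c₂ ⬝ᵥ z := by
    intro z h
    by_contra hno
    push Not at hno
    rw [hdot] at h
    have h1 := mul_nonpos_of_nonneg_of_nonpos hs hno.1
    have h2 := mul_nonpos_of_nonneg_of_nonpos ht hno.2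
    linarith
  have hdiff : ∀ (c : Fin n → ℝ) (y : Fin n → ℝ), c ⬝ᵥ x < c ⬝ᵥ y ↔ 0 < c ⬝ᵥ (y - x) := by
    intro c y
    rw [dotProduct_sub, sub_pos]
  have hview : (L A b c₃).view x = S := by
    ext N
    constructor
    · intro hN
      obtain ⟨y, hy, rfl⟩ := mem_view.1 hN
      rcases hor _ ((hdiff c₃ y).1 hy.2) with h | h
      · rw [← hv]
        exact mem_view.2 ⟨y, ⟨hy.1, (hdiff c₁ y).2 h⟩, rfl⟩
      · rw [← hv']
        exact mem_view.2 ⟨y, ⟨hy.1, (hdiff c₂ y).2 h⟩, rfl⟩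
    · intro hN
      have h1 := hN
      rw [← hv] at h1
      have h2 := hN
      rw [← hv'] at h2
      obtain ⟨y, hy, rfl⟩ := mem_view.1 h1
      obtain ⟨y', hy', hyy⟩ := mem_view.1 h2
      obtain rfl : y = y' := eq_of_tight (P := L A b c₁) hy.1.2.1 (by
        show (L A b c₁).tight y ⊆ (L A b c₂).tight y'
        rw [hyy])
      exact mem_view.2 ⟨y, ⟨hy.1, (hdiff c₃ y).2 (hpos _ ((hdiff c₁ y).1 hy.2)
        ((hdiff c₂ y).1 hy'.2))⟩, rfl⟩
  have hnf : ¬ (L A b c₃).Final x := by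
    refine not_final (by rw [hview]; exact hS) ?_
    rintro ⟨_, z, hz, hext⟩
    rcases hor z hz with h | h
    · exact hf ⟨hx, Or.inr ⟨hx, z, h, hext⟩⟩
    · exact hf' ⟨hx', Or.inr ⟨hx', z, h, hext⟩⟩
  have h6 : (L A b c₃).tight x = T := hxT
  show (L A b c₃).nview T = S
  rw [← h6, nview_tight (P := L A b c₃) hx hnf, hview]

/-- a convex combination of points with the same name -/
theorem comb_point {b₁ b₂ : Fin m → ℝ} {c : Fin n → ℝ} {s t : ℝ} (hs : 0 < s) (ht : 0 < t)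
    (_hst : s + t = 1) {y₁ y₂ : Fin n → ℝ}
    (h₁ : (L A b₁ c).Vertex y₁) (h₂ : (L A b₂ c).Vertex y₂)
    (hyy : (L A b₂ c).tight y₂ = (L A b₁ c).tight y₁) :
    (L A (s • b₁ + t • b₂) c).Vertex (s • y₁ + t • y₂) ∧
      (L A (s • b₁ + t • b₂) c).tight (s • y₁ + t • y₂) = (L A b₁ c).tight y₁ := by
  have hdot : ∀ l, A l ⬝ᵥ (s • y₁ + t • y₂) = s * (A l ⬝ᵥ y₁) + t * (A l ⬝ᵥ y₂) := fun l => by
    rw [dotProduct_add, dotProduct_smul, dotProduct_smul, smul_eq_mul, smul_eq_mul]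
  have hb : ∀ l, (s • b₁ + t • b₂) l = s * b₁ l + t * b₂ l := fun l => by
    simp [Pi.add_apply, Pi.smul_apply, smul_eq_mul]
  have hf₁ : ∀ l, A l ⬝ᵥ y₁ ≤ b₁ l := ((L A b₁ c).vertex_vtx.1 h₁).1
  have hf₂ : ∀ l, A l ⬝ᵥ y₂ ≤ b₂ l := ((L A b₂ c).vertex_vtx.1 h₂).1
  have htight : ∀ l, A l ⬝ᵥ (s • y₁ + t • y₂) = (s • b₁ + t • b₂) l ↔ A l ⬝ᵥ y₁ = b₁ l := by
    intro l
    have hiff : A l ⬝ᵥ y₂ = b₂ l ↔ A l ⬝ᵥ y₁ = b₁ l :=
      tight_congr (P := L A b₁ c) (P' := L A b₂ c) hyy l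
    rw [hdot, hb]
    constructor
    · intro h
      by_contra hne
      have h3 := lt_of_le_of_ne (hf₁ l) hne
      have h4 := mul_lt_mul_of_pos_left h3 hs
      have h5 := mul_le_mul_of_nonneg_left (hf₂ l) ht.le
      linarith
    · intro h
      rw [h, hiff.2 h]
  refine ⟨(L A _ c).vertex_vtx.2 ⟨fun l => ?_, fun q hq => ?_⟩, ?_⟩
  · show A l ⬝ᵥ (s • y₁ + t • y₂) ≤ (s • b₁ + t • b₂) l
    rw [hdot, hb]
    have h4 := mul_le_mul_of_nonneg_left (hf₁ l) hs.le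
    have h5 := mul_le_mul_of_nonneg_left (hf₂ l) ht.le
    linarith
  · exact ((L A b₁ c).vertex_vtx.1 h₁).2 q fun l hl => hq l ((htight l).2 hl)
  · ext l
    rw [mem_tight, mem_tight]
    exact htight l

/-- a convex combination of edges with the same names -/
theorem comb_edge {b₁ b₂ : Fin m → ℝ} {c : Fin n → ℝ} {s t : ℝ} (hs : 0 < s) (ht : 0 < t)
    (hst : s + t = 1) {x₁ x₂ y₁ y₂ : Fin n → ℝ}
    (h₁ : (L A b₁ c).Improving x₁ y₁) (h₂ : (L A b₂ c).Improving x₂ y₂)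
    (hxx : (L A b₂ c).tight x₂ = (L A b₁ c).tight x₁)
    (hyy : (L A b₂ c).tight y₂ = (L A b₁ c).tight y₁) :
    (L A (s • b₁ + t • b₂) c).Improving (s • x₁ + t • x₂) (s • y₁ + t • y₂) := by
  obtain ⟨hx, hxt⟩ := comb_point hs ht hst h₁.1.1 h₂.1.1 hxx
  obtain ⟨hy, hyt⟩ := comb_point hs ht hst h₁.1.2.1 h₂.1.2.1 hyy
  obtain ⟨r, hr, hpar⟩ := Edge.parallel (P := L A b₁ c) (P' := L A b₂ c) rfl h₁.1 h₂.1 hxx hyy
  set u : ℝ := s + t * r with hu
  have hupos : 0 < u := by positivity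
  have hdir : (s • y₁ + t • y₂) - (s • x₁ + t • x₂) = u • (y₁ - x₁) := by
    have : (s • y₁ + t • y₂) - (s • x₁ + t • x₂) = s • (y₁ - x₁) + t • (y₂ - x₂) := by
      rw [smul_sub, smul_sub]
      abel
    rw [this, hpar, smul_smul, ← add_smul]
  have hE := Edge.edg h₁.1
  have hc : 0 < c ⬝ᵥ (y₁ - x₁) := by
    have : c ⬝ᵥ x₁ < c ⬝ᵥ y₁ := h₁.2
    rw [dotProduct_sub]
    linarith
  have hE' : Edg (L A (s • b₁ + t • b₂) c).A (L A (s • b₁ + t • b₂) c).b (s • x₁ + t • x₂)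
      (s • y₁ + t • y₂) := by
    refine ⟨(LP.vertex_vtx _).1 hx, (LP.vertex_vtx _).1 hy, ?_, fun q hq => ?_⟩
    · rw [hdir]
      exact smul_ne_zero hupos.ne' hE.ne
    · obtain ⟨v, hv⟩ := hE.one q fun l hl h0 => hq l
        ((tight_congr (P := L A b₁ c) (P' := L A (s • b₁ + t • b₂) c) hxt l).2 hl) (by
          rw [hdir, dotProduct_smul, h0, smul_zero])
      refine ⟨v / u, ?_⟩
      rw [hdir, smul_smul, div_mul_cancel₀ _ hupos.ne']
      exact hv
  refine ⟨⟨hx, hy, fun h => hE'.ne ?_, hE'.extreme⟩, ?_⟩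
  · rw [← h, sub_self]
  · show c ⬝ᵥ (s • x₁ + t • x₂) < c ⬝ᵥ (s • y₁ + t • y₂)
    have h1 : 0 < c ⬝ᵥ ((s • y₁ + t • y₂) - (s • x₁ + t • x₂)) := by
      rw [hdir, dotProduct_smul, smul_eq_mul]
      exact mul_pos hupos hc
    rw [dotProduct_sub] at h1
    linarith

/-- convexity in the right hand side -/
theorem nview_convex_b {T : Name m} {S : Finset (Name m)} (hS : S.Nonempty) :
    Convex ℝ {b | (L A b c).nview T = S} := by
  intro b₁ h₁ b₂ h₂ s t hs ht hst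
  rcases hs.eq_or_lt with hs0 | hs
  · have ht1 : t = 1 := by linarith
    rw [← hs0, ht1, zero_smul, one_smul, zero_add]
    exact h₂
  rcases ht.eq_or_lt with ht0 | ht
  · have hs1 : s = 1 := by linarith
    rw [← ht0, hs1, zero_smul, one_smul, add_zero]
    exact h₁
  obtain ⟨x₁, hx₁, hf₁, hxT₁, hv₁⟩ := of_nview hS h₁
  obtain ⟨x₂, hx₂, hf₂, hxT₂, hv₂⟩ := of_nview hS h₂
  have hxx : (L A b₂ c).tight x₂ = (L A b₁ c).tight x₁ := by rw [hxT₁, hxT₂]
  obtain ⟨hx, hxt⟩ := comb_point hs ht hst hx₁ hx₂ hxx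
  set b₃ := s • b₁ + t • b₂ with hb₃
  set x := s • x₁ + t • x₂ with hxdef
  -- each member of `S` is seen
  have hsub : ∀ N ∈ S, ∃ y₁ y₂, (L A b₁ c).Improving x₁ y₁ ∧ (L A b₃ c).Improving x y₂ ∧
      (L A b₁ c).tight y₁ = N ∧ (L A b₃ c).tight y₂ = N := by
    intro N hN
    have h1 := hN
    rw [← hv₁] at h1
    have h2 := hN
    rw [← hv₂] at h2
    obtain ⟨y₁, hy₁, rfl⟩ := mem_view.1 h1
    obtain ⟨y₂, hy₂, hyy⟩ := mem_view.1 h2
    exact ⟨y₁, s • y₁ + t • y₂, hy₁, comb_edge hs ht hst hy₁ hy₂ hxx hyy, rfl,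
      (comb_point hs ht hst hy₁.1.2.1 hy₂.1.2.1 hyy).2⟩
  have hview : (L A b₃ c).view x = S := by
    ext N
    constructor
    · intro hN
      obtain ⟨y, hy, rfl⟩ := mem_view.1 hN
      obtain ⟨h1, h2⟩ := Edge.elem (P := L A b₃ c) (P' := L A b₁ c) rfl hy.1 hxt.symm
      have h3 : 0 < c ⬝ᵥ (y - x) := by
        have : c ⬝ᵥ x < c ⬝ᵥ y := hy.2
        rw [dotProduct_sub]
        linarith
      obtain ⟨r, hr, hI⟩ := exists_edge hx₁ hf₁ h1 h2 h3
      have hN' : (L A b₁ c).tight (x₁ + r • (y - x)) ∈ S := by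
        rw [← hv₁]
        exact mem_view.2 ⟨_, hI, rfl⟩
      obtain ⟨y₁, y₂, hy₁, hy₂, ht₁, ht₂⟩ := hsub _ hN'
      obtain ⟨q, hq, hpar⟩ := Edge.parallel (P := L A b₃ c) (P' := L A b₁ c) rfl hy₂.1 hI.1 hxt.symm
        ht₂.symm
      have hyy : y₂ = y := by
        refine Edge.end_eq (P := L A b₃ c) (t := r / q) (by positivity) hy.1 hy₂.1 ?_
        have : x₁ + r • (y - x) - x₁ = r • (y - x) := by abel
        rw [this] at hpar
        rw [div_eq_inv_mul, mul_smul, hpar, smul_smul, inv_mul_cancel₀ hq.ne', one_smul]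
      rw [← hyy, ht₂]
      exact hN'
    · intro hN
      obtain ⟨y₁, y₂, _, hy₂, _, ht₂⟩ := hsub _ hN
      exact mem_view.2 ⟨y₂, hy₂, ht₂⟩
  have hnf : ¬ (L A b₃ c).Final x := by
    refine not_final (by rw [hview]; exact hS) ?_
    rintro ⟨_, z, hz, hext⟩
    exact hf₁ ⟨hx₁, Or.inr (Ray.elem (P := L A b₃ c) (P' := L A b₁ c) rfl hx₁ hx hxt.symm hext
      hz)⟩
  have h6 : (L A b₃ c).tight x = T := by rw [hxt, hxT₁]
  show (L A b₃ c).nview T = S
  rw [← h6, nview_tight (P := L A b₃ c) hx hnf, hview]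

/-- **Centers see what everybody sees.** -/
theorem nview_hull {T : Name m} {S : Finset (Name m)} (hS : S.Nonempty)
    {G : Set (Fin m → ℝ)} {H : Set (Fin n → ℝ)}
    (h : ∀ b ∈ G, ∀ c ∈ H, (L A b c).nview T = S) {b₀ : Fin m → ℝ} {c₀ : Fin n → ℝ}
    (hb₀ : b₀ ∈ convexHull ℝ G) (hc₀ : c₀ ∈ convexHull ℝ H) : (L A b₀ c₀).nview T = S := by
  have h1 : ∀ b ∈ G, (L A b c₀).nview T = S := fun b hb =>
    convexHull_min (t := {c | (L A b c).nview T = S}) (fun c hc => h b hb c hc)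
      (nview_convex_c hS) hc₀
  exact convexHull_min (t := {b | (L A b c₀).nview T = S}) h1 (nview_convex_b hS) hb₀

end LP

end Pool.Agent.Simplex.Tableau
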