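import Pool.Agent.Lib.MP_4d246d_lc.Blind.Count
import Pool.Agent.Lib.MP_4d246d_lc.Known.Convex

/-!
# For a fixed matrix few right hand sides and objectives represent all of them
-/

namespace Pool.Agent.Simplex.Tableau

open Matrix MvPolynomial

/-- few points represent all sign patterns -/
theorem exists_reps {σ ι : Type*} [Fintype σ] [Fintype ι] (p : ι → MvPolynomial σ ℝ) {d : ℕ}
    (hd : ∑ i, (p i).totalDegree ≤ d) (Y : Set (σ → ℝ)) :
    ∃ F : Finset (σ → ℝ), (F : Set (σ → ℝ)) ⊆ Y ∧ F.card ≤ (4 * d + 1) ^ Fintype.card σ ∧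
      ∀ y ∈ Y, ∃ y' ∈ F, ∀ i, SignType.sign (eval y (p i)) = SignType.sign (eval y' (p i)) := by
  classical
  set S : Finset (ι → SignType) := Finset.univ.filter fun s =>
    ∃ y ∈ Y, ∀ i, SignType.sign (eval y (p i)) = s i with hS
  have hch : ∀ s ∈ S, ∃ y ∈ Y, ∀ i, SignType.sign (eval y (p i)) = s i :=
    fun s hs => (Finset.mem_filter.1 hs).2
  choose! f hf1 hf2 using hch
  refine ⟨S.image f, ?_, ?_, fun y hy => ?_⟩
  · intro y hy
    obtain ⟨s, hs, rfl⟩ := Finset.mem_image.1 (Finset.mem_coe.1 hy)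
    exact hf1 s hs
  · exact Finset.card_image_le.trans (card_sign3_le p hd S fun s hs => ⟨f s, hf2 s hs⟩)
  · have hs : (fun i => SignType.sign (eval y (p i))) ∈ S :=
      Finset.mem_filter.2 ⟨Finset.mem_univ _, y, hy, fun _ => rfl⟩
    exact ⟨_, Finset.mem_image_of_mem f hs, fun i => (hf2 _ hs i).symm⟩

namespace LP

variable {m n : ℕ} {A : Matrix (Fin m) (Fin n) ℝ}

theorem E_linear (P : LP m n) (r : Fin n → Fin m) (k : Fin n) (u : Fin n → ℝ) :
    P.E r k u = ∑ j, u j * P.E r k (Pi.single j 1) := by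
  classical
  have h : ∀ v, P.E r k v = cramer (P.B r)ᵀ v k := fun v => (cramer_transpose_apply _ _ _).symm
  rw [h]
  conv_lhs => rw [← Finset.univ_sum_single u]
  rw [map_sum, Finset.sum_apply]
  refine Finset.sum_congr rfl fun j _ => ?_
  have : (Pi.single j (u j) : Fin n → ℝ) = u j • (Pi.single j 1) := by
    rw [← Pi.single_smul]
    simp
  rw [this, map_smul, Pi.smul_apply, smul_eq_mul, ← h]

/-- the slacks as functions of the right hand side -/
noncomputable def polB (A : Matrix (Fin m) (Fin n) ℝ) :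
    (Fin n → Fin m) × Fin m → MvPolynomial (Fin m) ℝ := fun e =>
  X e.2 * C ((L A 0 0).D e.1) - ∑ k, X (e.1 k) * C ((L A 0 0).E e.1 k (A e.2))

/-- the reduced costs as functions of the objective -/
noncomputable def polC (A : Matrix (Fin m) (Fin n) ℝ) :
    (Fin n → Fin m) × Fin n → MvPolynomial (Fin n) ℝ := fun e =>
  ∑ j, X j * C ((L A 0 0).E e.1 e.2 (Pi.single j 1))

theorem eval_polB (b : Fin m → ℝ) (c : Fin n → ℝ) (e : (Fin n → Fin m) × Fin m) :
    eval b (polB A e) = (L A b c).S e.1 e.2 := by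
  simp only [polB, map_sub, map_mul, map_sum, eval_X, eval_C]
  rfl

theorem eval_polC (b : Fin m → ℝ) (c : Fin n → ℝ) (e : (Fin n → Fin m) × Fin n) :
    eval c (polC A e) = (L A b c).E e.1 e.2 c := by
  rw [E_linear]
  simp only [polC, map_mul, map_sum, eval_X, eval_C]
  rfl

theorem totalDegree_polB (e : (Fin n → Fin m) × Fin m) : (polB A e).totalDegree ≤ 1 := by
  have h : ∀ (i : Fin m) (a : ℝ), (X i * C a : MvPolynomial (Fin m) ℝ).totalDegree ≤ 1 := by
    intro i a
    refine (totalDegree_mul _ _).trans ?_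
    rw [totalDegree_X, totalDegree_C]
  exact (totalDegree_sub _ _).trans (max_le (h _ _) (totalDegree_finsetSum_le fun k _ => h _ _))

theorem totalDegree_polC (e : (Fin n → Fin m) × Fin n) : (polC A e).totalDegree ≤ 1 := by
  refine totalDegree_finsetSum_le fun k _ => ?_
  refine (totalDegree_mul _ _).trans ?_
  rw [totalDegree_X, totalDegree_C]

/-- **Few right hand sides and objectives.** -/
theorem exists_reps_pair (A : Matrix (Fin m) (Fin n) ℝ) (U : Set (Fin m → ℝ))
    (V : Set (Fin n → ℝ)) : ∃ (F : Finset (Fin m → ℝ)) (F' : Finset (Fin n → ℝ)),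
      (F : Set (Fin m → ℝ)) ⊆ U ∧ (F' : Set (Fin n → ℝ)) ⊆ V ∧
      F.card ≤ (4 * (m ^ n * m) + 1) ^ m ∧ F'.card ≤ (4 * (m ^ n * n) + 1) ^ n ∧
      ∀ b ∈ U, ∀ c ∈ V, ∃ b' ∈ F, ∃ c' ∈ F', (L A b c).nview = (L A b' c').nview := by
  obtain ⟨F, hF1, hF2, hF3⟩ := exists_reps (polB A) (d := m ^ n * m) (by
    refine (Finset.sum_le_card_nsmul _ _ 1 fun e _ => totalDegree_polB e).trans ?_
    rw [smul_eq_mul, mul_one, Finset.card_univ]
    simp) U
  obtain ⟨F', hF1', hF2', hF3'⟩ := exists_reps (polC A) (d := m ^ n * n) (by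
    refine (Finset.sum_le_card_nsmul _ _ 1 fun e _ => totalDegree_polC e).trans ?_
    rw [smul_eq_mul, mul_one, Finset.card_univ]
    simp) V
  rw [Fintype.card_fin] at hF2 hF2'
  refine ⟨F, F', hF1, hF1', hF2, hF2', fun b hb c hc => ?_⟩
  obtain ⟨b', hb', h⟩ := hF3 b hb
  obtain ⟨c', hc', h'⟩ := hF3' c hc
  refine ⟨b', hb', c', hc', Same.nview_eq ⟨fun r => rfl, fun r l => ?_, fun r k l => rfl,
    fun r k => ?_⟩⟩
  · have := h (r, l)
    rwa [eval_polB b c, eval_polB b' c'] at this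
  · have := h' (r, k)
    rwa [eval_polC b c, eval_polC b' c'] at this

end LP

end Pool.Agent.Simplex.Tableau
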