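import Pool.Agent.Lib.MP_4d246d_lc.Blind.Defs

/-!
# What it means that short paths exist and that a blind rule solves a linear program
-/

namespace Pool.Agent.Simplex.Tableau.LP

variable {m n : ℕ}

/-- From each vertex a final vertex can be reached by at most `D` pivots. -/
def Reach (P : LP m n) (D : ℕ) : Prop :=
  ∀ x₀, P.Vertex x₀ → ∃ (k : ℕ) (x : ℕ → Fin n → ℝ), k ≤ D ∧ x 0 = x₀ ∧
    (∀ i < k, P.Improving (x i) (x (i + 1))) ∧ P.Final (x k)

/-- From each vertex `x₀` the rule `ρ` has a run with at most `N` pivots to a final vertex, and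
every run of the rule from `x₀` is an initial part of it. -/
def Solves (ρ : BlindRule m) (P : LP m n) (N : ℕ) : Prop :=
  ∀ x₀, P.Vertex x₀ → ∃ (k : ℕ) (x : ℕ → Fin n → ℝ), k ≤ N ∧ x 0 = x₀ ∧ P.Run ρ x k ∧
    P.Final (x k) ∧ ∀ k' x', x' 0 = x₀ → P.Run ρ x' k' → k' ≤ k ∧ ∀ i ≤ k', x' i = x i

theorem Solves.mono {ρ : BlindRule m} {P : LP m n} {N N' : ℕ} (h : Solves ρ P N) (hN : N ≤ N') :
    Solves ρ P N' := fun x₀ hx₀ => by
  obtain ⟨k, x, hk, h⟩ := h x₀ hx₀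
  exact ⟨k, x, hk.trans hN, h⟩

end Pool.Agent.Simplex.Tableau.LP
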