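import Pool.Agent.Lib.MP_4d246d_lc.Known.Center
import Pool.Agent.Lib.MP_4d246d_lc.Known.Count
import Pool.Agent.Lib.MP_4d246d_lc.Blind.Final
import Pool.Agent.Lib.MP_4d246d_lc.Known.Solves

/-!
# A blind rule that follows short paths of centers
-/

namespace Pool.Agent.MP4d246d.Blind

variable {V : Type*}

theorem Win.anti : ∀ {N : ℕ} {F F' : Finset (V → Finset V)} {v : V}, F' ⊆ F → Win N F v →
    Win N F' v := by
  intro N
  induction N with
  | zero => intro F F' v hF h o ho; exact h o (hF ho)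
  | succ N ih =>
    intro F F' v hF h
    rcases h with h | ⟨u, hu, h⟩
    · exact Or.inl fun o ho => h o (hF ho)
    · refine Or.inr ⟨u, fun o ho => hu o (hF ho), fun S => ih ?_ (h S)⟩
      intro o ho
      obtain ⟨h1, h2⟩ := mem_fil.1 ho
      exact mem_fil.2 ⟨hF h1, h2⟩

end Pool.Agent.MP4d246d.Blind

namespace Pool.Agent.Simplex.Tableau

open Pool.Agent.MP4d246d.Blind Pool.Agent.MP4d246d.Known

namespace LP

variable {m n : ℕ} {A : Matrix (Fin m) (Fin n) ℝ}

open Classical in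
/-- the structures of the programs with right hand sides in `G` and objectives in `H` -/
noncomputable def FF (A : Matrix (Fin m) (Fin n) ℝ) (G : Finset (Fin m → ℝ))
    (H : Finset (Fin n → ℝ)) : Finset (Name m → Finset (Name m)) :=
  (G ×ˢ H).image fun e => (L A e.1 e.2).nview

theorem mem_FF {G : Finset (Fin m → ℝ)} {H : Finset (Fin n → ℝ)}
    {o : Name m → Finset (Name m)} :
    o ∈ FF A G H ↔ ∃ b ∈ G, ∃ c ∈ H, (L A b c).nview = o := by
  classical
  unfold FF
  rw [Finset.mem_image]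
  constructor
  · rintro ⟨⟨b, c⟩, h, rfl⟩
    rw [Finset.mem_product] at h
    exact ⟨b, h.1, c, h.2, rfl⟩
  · rintro ⟨b, hb, c, hc, rfl⟩
    exact ⟨(b, c), Finset.mem_product.2 ⟨hb, hc⟩, rfl⟩

/-- the candidates with a given view form a product -/
theorem fil_FF (G : Finset (Fin m → ℝ)) (H : Finset (Fin n → ℝ)) (u : Name m)
    {S : Finset (Name m)} (hS : S.Nonempty) :
    ∃ G' ⊆ G, ∃ H' ⊆ H, (∀ b ∈ G', ∀ c ∈ H', (L A b c).nview u = S) ∧
      (fil (FF A G H) fun o => o u = S) ⊆ FF A G' H' := by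
  classical
  refine ⟨G.filter fun b => ∃ c ∈ H, (L A b c).nview u = S, Finset.filter_subset _ _,
    H.filter fun c => ∃ b ∈ G, (L A b c).nview u = S, Finset.filter_subset _ _, ?_, ?_⟩
  · intro b hb c hc
    obtain ⟨_, c', _, h1⟩ := Finset.mem_filter.1 hb
    obtain ⟨_, b', _, h2⟩ := Finset.mem_filter.1 hc
    exact nview_cross hS h1 h2
  · intro o ho
    obtain ⟨h1, h2⟩ := mem_fil.1 ho
    obtain ⟨b, hb, c, hc, rfl⟩ := mem_FF.1 h1
    exact mem_FF.2 ⟨b, Finset.mem_filter.2 ⟨hb, c, hc, h2⟩, c,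
      Finset.mem_filter.2 ⟨hc, b, hb, h2⟩, rfl⟩

theorem step_card {d p : ℕ} {a a' : ℕ} (h : a * d ^ (p + 1) < (d + 1) ^ (p + 1))
    (ha : (d + 1) * a' ≤ d * a) : a' * d ^ p < (d + 1) ^ p := by
  have h3 : (d + 1) * (a' * d ^ p) < (d + 1) * (d + 1) ^ p := by
    calc (d + 1) * (a' * d ^ p) = ((d + 1) * a') * d ^ p := by ring
      _ ≤ (d * a) * d ^ p := Nat.mul_le_mul_right _ ha
      _ = a * d ^ (p + 1) := by ring
      _ < (d + 1) ^ (p + 1) := h
      _ = (d + 1) * (d + 1) ^ p := by ring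
  exact Nat.lt_of_mul_lt_mul_left h3

/-- **Following the short paths of centers.** -/
theorem win_center {U : Set (Fin m → ℝ)} {V : Set (Fin n → ℝ)} (hU : Convex ℝ U)
    (hV : Convex ℝ V) {D : ℕ}
    (hD : ∀ b ∈ U, ∀ c ∈ V, Reach (L A b c) D) :
    ∀ (N p q : ℕ) (G : Finset (Fin m → ℝ)) (H : Finset (Fin n → ℝ)) (v : Name m),
      p + q = N → (G : Set (Fin m → ℝ)) ⊆ U → (H : Set (Fin n → ℝ)) ⊆ V →
      (∃ S, ∀ b ∈ G, ∀ c ∈ H, (L A b c).nview v = S) →
      G.card * m ^ p < (m + 1) ^ p → H.card * n ^ q < (n + 1) ^ q →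
      Win (D * N) (FF A G H) v := by
  classical
  intro N
  induction N with
  | zero =>
    intro p q G H v hpq _ _ _ hG _
    obtain rfl : p = 0 := by omega
    have : G = ∅ := by
      rw [← Finset.card_eq_zero]
      simpa using hG
    subst this
    exact Win.of_base _ fun o ho => by
      obtain ⟨b, hb, _⟩ := mem_FF.1 ho
      simp at hb
  | succ N ih =>
    intro p q G H v hpq hGU hHV ⟨S, hS⟩ hG hH
    rcases G.eq_empty_or_nonempty with rfl | hGne
    · exact Win.of_base _ fun o ho => by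
        obtain ⟨b, hb, _⟩ := mem_FF.1 ho
        simp at hb
    rcases H.eq_empty_or_nonempty with rfl | hHne
    · exact Win.of_base _ fun o ho => by
        obtain ⟨b, _, c, hc, _⟩ := mem_FF.1 ho
        simp at hc
    rcases S.eq_empty_or_nonempty with rfl | hSne
    · exact Win.of_base _ fun o ho => by
        obtain ⟨b, hb, c, hc, rfl⟩ := mem_FF.1 ho
        exact hS b hb c hc
    obtain ⟨b₀, hb₀, hcb⟩ := exists_center G hGne
    obtain ⟨c₀, hc₀, hcc⟩ := exists_center H hHne
    have hb₀U : b₀ ∈ U := convexHull_min hGU hU hb₀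
    have hc₀V : c₀ ∈ V := convexHull_min hHV hV hc₀
    have h₀ := nview_hull (A := A) (T := v) hSne (G := (G : Set (Fin m → ℝ)))
      (H := (H : Set (Fin n → ℝ))) (fun b hb c hc => hS b hb c hc) hb₀ hc₀
    obtain ⟨x₀, hx₀, _, hx₀v, _⟩ := of_nview hSne h₀
    obtain ⟨k, x, hkD, hx0, himp, hfin⟩ := hD b₀ hb₀U c₀ hc₀V x₀ hx₀
    have key : ∀ (r i : ℕ), i + r = k → ∀ (G' : Finset (Fin m → ℝ)) (H' : Finset (Fin n → ℝ)),
        G' ⊆ G → H' ⊆ H →
        (∃ S', ∀ b ∈ G', ∀ c ∈ H', (L A b c).nview ((L A b₀ c₀).tight (x i)) = S') →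
        Win (r + D * N) (FF A G' H') ((L A b₀ c₀).tight (x i)) := by
      intro r
      induction r with
      | zero =>
        intro i hik G' H' hG' hH' ⟨S', hS'⟩
        by_cases h1 : m * G.card < (m + 1) * G'.card
        · by_cases h2 : n * H.card < (n + 1) * H'.card
          · rcases S'.eq_empty_or_nonempty with rfl | hne
            · exact Win.of_base _ fun o ho => by
                obtain ⟨b, hb, c, hc, rfl⟩ := mem_FF.1 ho
                exact hS' b hb c hc
            · exfalso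
              have h3 := nview_hull (A := A) hne (G := (G' : Set (Fin m → ℝ)))
                (H := (H' : Set (Fin n → ℝ))) (fun b hb c hc => hS' b hb c hc)
                (hcb G' hG' h1) (hcc H' hH' h2)
              rw [show i = k by omega, nview_final hfin] at h3
              rw [← h3] at hne
              exact Finset.not_nonempty_empty hne
          · obtain ⟨q', rfl⟩ : ∃ q', q = q' + 1 := ⟨q - 1, by
              rcases q.eq_zero_or_pos with h0 | h0
              · rw [h0, pow_zero, pow_zero, mul_one] at hH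
                have := Finset.card_pos.2 hHne
                omega
              · omega⟩
            refine (ih p q' G' H' _ (by omega) (fun y hy => hGU (hG' hy))
              (fun y hy => hHV (hH' hy)) ⟨S', hS'⟩ ?_ ?_).mono (by omega)
            · exact (Nat.mul_le_mul_right _ (Finset.card_le_card hG')).trans_lt hG
            · exact step_card hH (not_lt.1 h2)
        · obtain ⟨p', rfl⟩ : ∃ p', p = p' + 1 := ⟨p - 1, by
            rcases p.eq_zero_or_pos with h0 | h0
            · rw [h0, pow_zero, pow_zero, mul_one] at hG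
              have := Finset.card_pos.2 hGne
              omega
            · omega⟩
          refine (ih p' q G' H' _ (by omega) (fun y hy => hGU (hG' hy))
            (fun y hy => hHV (hH' hy)) ⟨S', hS'⟩ ?_ ?_).mono (by omega)
          · exact step_card hG (not_lt.1 h1)
          · exact (Nat.mul_le_mul_right _ (Finset.card_le_card hH')).trans_lt hH
      | succ r ihr =>
        intro i hik G' H' hG' hH' ⟨S', hS'⟩
        by_cases h1 : m * G.card < (m + 1) * G'.card
        · by_cases h2 : n * H.card < (n + 1) * H'.card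
          · rcases S'.eq_empty_or_nonempty with rfl | hne
            · exact Win.of_base _ fun o ho => by
                obtain ⟨b, hb, c, hc, rfl⟩ := mem_FF.1 ho
                exact hS' b hb c hc
            · have h3 := nview_hull (A := A) hne (G := (G' : Set (Fin m → ℝ)))
                (H := (H' : Set (Fin n → ℝ))) (fun b hb c hc => hS' b hb c hc)
                (hcb G' hG' h1) (hcc H' hH' h2)
              have hI := himp i (by omega)
              have hnf : ¬ (L A b₀ c₀).Final (x i) := by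
                intro hf
                rw [nview_final hf] at h3
                rw [← h3] at hne
                exact Finset.not_nonempty_empty hne
              rw [nview_tight hI.1.1 hnf] at h3
              have hmem : (L A b₀ c₀).tight (x (i + 1)) ∈ S' := by
                rw [← h3]
                exact mem_view.2 ⟨_, hI, rfl⟩
              rw [show r + 1 + D * N = (r + D * N) + 1 by ring]
              refine Or.inr ⟨(L A b₀ c₀).tight (x (i + 1)), fun o ho => ?_, fun S'' => ?_⟩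
              · obtain ⟨b, hb, c, hc, rfl⟩ := mem_FF.1 ho
                rw [hS' b hb c hc]
                exact hmem
              · rcases S''.eq_empty_or_nonempty with rfl | hne''
                · exact Win.of_base _ fun o ho => (mem_fil.1 ho).2
                · obtain ⟨G'', hG'', H'', hH'', hcom, hsub⟩ := fil_FF (A := A) G' H'
                    ((L A b₀ c₀).tight (x (i + 1))) hne''
                  exact Win.anti hsub (ihr (i + 1) (by omega) G'' H'' (hG''.trans hG')
                    (hH''.trans hH') ⟨S'', hcom⟩)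
          · obtain ⟨q', rfl⟩ : ∃ q', q = q' + 1 := ⟨q - 1, by
              rcases q.eq_zero_or_pos with h0 | h0
              · rw [h0, pow_zero, pow_zero, mul_one] at hH
                have := Finset.card_pos.2 hHne
                omega
              · omega⟩
            refine (ih p q' G' H' _ (by omega) (fun y hy => hGU (hG' hy))
              (fun y hy => hHV (hH' hy)) ⟨S', hS'⟩ ?_ ?_).mono (by omega)
            · exact (Nat.mul_le_mul_right _ (Finset.card_le_card hG')).trans_lt hG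
            · exact step_card hH (not_lt.1 h2)
        · obtain ⟨p', rfl⟩ : ∃ p', p = p' + 1 := ⟨p - 1, by
            rcases p.eq_zero_or_pos with h0 | h0
            · rw [h0, pow_zero, pow_zero, mul_one] at hG
              have := Finset.card_pos.2 hGne
              omega
            · omega⟩
          refine (ih p' q G' H' _ (by omega) (fun y hy => hGU (hG' hy))
            (fun y hy => hHV (hH' hy)) ⟨S', hS'⟩ ?_ ?_).mono (by omega)
          · exact step_card hG (not_lt.1 h1)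
          · exact (Nat.mul_le_mul_right _ (Finset.card_le_card hH')).trans_lt hH
    have h0 := key k 0 (by omega) G H (Finset.Subset.refl _) (Finset.Subset.refl _) (by
      refine ⟨S, fun b hb c hc => ?_⟩
      rw [hx0]
      have := hS b hb c hc
      rw [← hx₀v] at this
      exact this)
    rw [hx0] at h0
    have h1 : (L A b₀ c₀).tight x₀ = v := hx₀v
    rw [h1] at h0
    refine h0.mono ?_
    rw [Nat.mul_succ]
    omega

theorem pow_card {d L a : ℕ} (hd : 1 ≤ d) (ha : a < 2 ^ L) :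
    a * d ^ (d * L) < (d + 1) ^ (d * L) := by
  have h2 : 0 < d ^ (d * L) := by positivity
  calc a * d ^ (d * L) < 2 ^ L * d ^ (d * L) := Nat.mul_lt_mul_of_pos_right ha h2
    _ = (2 * d ^ d) ^ L := by rw [mul_pow, ← pow_mul]
    _ ≤ ((d + 1) ^ d) ^ L := Nat.pow_le_pow_left (two_mul_pow_le hd) L
    _ = (d + 1) ^ (d * L) := by rw [← pow_mul]

theorem card_reps {a t : ℕ} (ht : t ≤ m) (ha : a ≤ (4 * (m ^ n * t) + 1) ^ t) :
    a < 2 ^ (t * (Nat.size m * (n + 1) + 2) + 1) := by
  set s := Nat.size m with hs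
  have hms : m + 1 ≤ 2 ^ s := Nat.lt_size_self m
  have h1 : m ^ (n + 1) + 1 ≤ 2 ^ (s * (n + 1)) := by
    calc m ^ (n + 1) + 1 ≤ (m + 1) ^ (n + 1) := Nat.pow_lt_pow_left (Nat.lt_succ_self m) (by omega)
      _ ≤ (2 ^ s) ^ (n + 1) := Nat.pow_le_pow_left hms _
      _ = 2 ^ (s * (n + 1)) := by rw [← pow_mul]
  have h2 : 4 * (m ^ n * t) + 1 ≤ 2 ^ (s * (n + 1) + 2) := by
    have h3 : m ^ n * t ≤ m ^ (n + 1) := by
      rw [pow_succ]
      exact Nat.mul_le_mul_left _ ht
    have h4 : 2 ^ (s * (n + 1) + 2) = 4 * 2 ^ (s * (n + 1)) := by ring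
    omega
  calc a ≤ (4 * (m ^ n * t) + 1) ^ t := ha
    _ ≤ (2 ^ (s * (n + 1) + 2)) ^ t := Nat.pow_le_pow_left h2 t
    _ = 2 ^ (t * (s * (n + 1) + 2)) := by rw [← pow_mul, mul_comm]
    _ < 2 ^ (t * (s * (n + 1) + 2) + 1) := Nat.pow_lt_pow_right (by norm_num) (Nat.lt_succ_self _)

theorem final_bound (hn : 1 ≤ n) (hnm : n ≤ m) (D : ℕ) :
    D * (m * (m * (Nat.size m * (n + 1) + 2) + 1) + n * (n * (Nat.size m * (n + 1) + 2) + 1)) ≤
      10 * m ^ 2 * n * Nat.size m * D := by
  set s := Nat.size m with hs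
  have hs1 : 1 ≤ s := Nat.size_pos.2 (by omega)
  have h1 : s * (n + 1) + 2 ≤ 4 * (s * n) := by nlinarith
  have h2 : 1 ≤ s * n := Nat.mul_pos hs1 hn
  have h3 : m * (m * (s * (n + 1) + 2) + 1) ≤ 5 * (m ^ 2 * (s * n)) := by
    have h4 : m * (s * (n + 1) + 2) + 1 ≤ 5 * (m * (s * n)) := by nlinarith
    calc m * (m * (s * (n + 1) + 2) + 1) ≤ m * (5 * (m * (s * n))) := Nat.mul_le_mul_left m h4
      _ = 5 * (m ^ 2 * (s * n)) := by ring
  have h5 : n * (n * (s * (n + 1) + 2) + 1) ≤ 5 * (m ^ 2 * (s * n)) := by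
    have h4 : n * (s * (n + 1) + 2) + 1 ≤ m * (s * (n + 1) + 2) + 1 :=
      Nat.add_le_add_right (Nat.mul_le_mul_right _ hnm) 1
    exact (Nat.mul_le_mul hnm h4).trans h3
  calc D * (m * (m * (s * (n + 1) + 2) + 1) + n * (n * (s * (n + 1) + 2) + 1))
      ≤ D * (5 * (m ^ 2 * (s * n)) + 5 * (m ^ 2 * (s * n))) :=
        Nat.mul_le_mul_left D (Nat.add_le_add h3 h5)
    _ = 10 * m ^ 2 * n * s * D := by ring

theorem final_bound_one (hn : 1 ≤ n) (hnm : n ≤ m) (D : ℕ) :
    D * (1 + n * (n * (Nat.size m * (n + 1) + 2) + 1)) ≤ 6 * n ^ 3 * Nat.size m * D := by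
  set s := Nat.size m with hs
  have hs1 : 1 ≤ s := Nat.size_pos.2 (by omega)
  have h1 : s * (n + 1) + 2 ≤ 4 * (s * n) := by nlinarith
  have h2 : 1 ≤ s * n := Nat.mul_pos hs1 hn
  have h4 : n * (s * (n + 1) + 2) + 1 ≤ 5 * (n * (s * n)) := by nlinarith
  have h5 : 1 + n * (n * (s * (n + 1) + 2) + 1) ≤ 6 * (n ^ 3 * s) := by
    have h6 : n * (n * (s * (n + 1) + 2) + 1) ≤ 5 * (n ^ 3 * s) := by
      calc n * (n * (s * (n + 1) + 2) + 1) ≤ n * (5 * (n * (s * n))) := Nat.mul_le_mul_left n h4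
        _ = 5 * (n ^ 3 * s) := by ring
    have h7 : 1 ≤ n ^ 3 * s := Nat.mul_pos (by positivity) hs1
    omega
  calc D * (1 + n * (n * (s * (n + 1) + 2) + 1)) ≤ D * (6 * (n ^ 3 * s)) :=
        Nat.mul_le_mul_left D h5
    _ = 6 * n ^ 3 * s * D := by ring

/-- the rule for a finite set of candidates -/
theorem solves_core {A : Matrix (Fin m) (Fin n) ℝ} {U : Set (Fin m → ℝ)}
    {V : Set (Fin n → ℝ)} (hU : Convex ℝ U) (hV : Convex ℝ V) {D : ℕ}
    (hD : ∀ b ∈ U, ∀ c ∈ V, Reach (L A b c) D) {G : Finset (Fin m → ℝ)}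
    {H : Finset (Fin n → ℝ)} (hGU : (G : Set (Fin m → ℝ)) ⊆ U) (hHV : (H : Set (Fin n → ℝ)) ⊆ V)
    (hrep : ∀ b ∈ U, ∀ c ∈ V, ∃ b' ∈ G, ∃ c' ∈ H, (L A b c).nview = (L A b' c').nview)
    {p q : ℕ} (hp : G.card * m ^ p < (m + 1) ^ p) (hq : H.card * n ^ q < (n + 1) ^ q) :
    ∃ ρ : BlindRule m, ∀ b ∈ U, ∀ c ∈ V, Solves ρ (L A b c) (D * (p + q)) := by
  classical
  set N := D * (p + q) with hN
  have hwin : ∀ v S, Win N (cand (FF A G H) [(v, S)]) v := by
    intro v S
    rcases S.eq_empty_or_nonempty with rfl | hne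
    · exact Win.of_base _ fun o ho => (mem_fil.1 ho).2 (v, ∅) (by simp)
    · obtain ⟨G', hG', H', hH', hcom, hsub⟩ := fil_FF (A := A) G H v hne
      refine Win.anti (F := FF A G' H') ?_ (win_center hU hV hD _ p q G' H' v rfl
        (fun y hy => hGU (hG' hy)) (fun y hy => hHV (hH' hy)) ⟨S, hcom⟩ ?_ ?_)
      · refine Finset.Subset.trans ?_ hsub
        intro o ho
        obtain ⟨h1, h2⟩ := mem_fil.1 ho
        exact mem_fil.2 ⟨h1, h2 (v, S) (by simp)⟩
      · exact (Nat.mul_le_mul_right _ (Finset.card_le_card hG')).trans_lt hp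
      · exact (Nat.mul_le_mul_right _ (Finset.card_le_card hH')).trans_lt hq
  refine ⟨⟨pickOf ∅ N (FF A G H), pickOf_mem ∅ N (FF A G H)⟩, fun b hb c hc x₀ hx₀ => ?_⟩
  set ρ : BlindRule m := ⟨pickOf ∅ N (FF A G H), pickOf_mem ∅ N (FF A G H)⟩ with hρ
  obtain ⟨k, x, hkN, hx0, hxk, hrun, hcase⟩ := run_of_nrun (P := L A b c) (ρ := ρ) hx₀ N
  have hf : (L A b c).Final (x k) := by
    rcases hcase with ⟨hf, _⟩ | ⟨rfl, hf, hseen⟩
    · exact hf
    · exfalso
      obtain ⟨b', hb', c', hc', hbc⟩ := hrep b hb c hc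
      obtain ⟨v, l, h1, h2⟩ := pickOf_spec ∅ N (FF A G H) hwin (L A b c).nview
        (mem_FF.2 ⟨b', hb', c', hc', hbc.symm⟩) ((L A b c).tight x₀)
      obtain ⟨l', h3⟩ := (L A b c).seen_head x N
      have h4 : (v, (L A b c).nview v) :: l = ((L A b c).tight (x N), (L A b c).view (x N)) :: l' := by
        rw [← h3, ← hseen]
        exact h1.symm
      have h5 : (L A b c).view (x N) = ∅ := by
        have h6 := (List.cons.inj h4).1
        have h7 := (Prod.ext_iff.1 h6).2
        simp only at h7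
        rw [← h7]
        exact h2
      have h8 := view_nonempty hxk hf
      rw [h5] at h8
      exact Finset.not_nonempty_empty h8
  exact ⟨k, x, hkN, hx0, hrun, hf, fun k' x' h0 h' =>
    Run.unique (hx0.trans h0.symm) hrun hf h'⟩

/-- the cases without pivots -/
theorem solves_trivial (h : ¬ n ≤ m ∨ n = 0) :
    ∃ ρ : BlindRule m, ∀ P : LP m n, ∀ N, Solves ρ P N := by
  refine ⟨⟨pickOf ∅ 0 ∅, pickOf_mem ∅ 0 ∅⟩, fun P N x₀ hx₀ => ?_⟩
  rcases h with h | rfl
  · exact absurd (le_of_vertex hx₀) h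
  · have hf : P.Final x₀ := ⟨hx₀, Or.inl ⟨hx₀.1, fun y _ => by rw [Subsingleton.elim y x₀]⟩⟩
    have hrun : P.Run ⟨pickOf ∅ 0 ∅, pickOf_mem ∅ 0 ∅⟩ (fun _ => x₀) 0 :=
      ⟨fun t ht => absurd ht (Nat.not_lt_zero t), fun t ht => absurd ht (Nat.not_lt_zero t),
        fun t ht => absurd ht (Nat.not_lt_zero t)⟩
    exact ⟨0, fun _ => x₀, Nat.zero_le _, rfl, hrun, hf, fun k' x' h0 h' =>
      Run.unique h0.symm hrun hf h'⟩

/-- **Main theorem: `b` and `c` unseen.** -/
theorem known_matrix (A : Matrix (Fin m) (Fin n) ℝ) {U : Set (Fin m → ℝ)} {V : Set (Fin n → ℝ)}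
    (hU : Convex ℝ U) (hV : Convex ℝ V) {D : ℕ} (hD : ∀ b ∈ U, ∀ c ∈ V, Reach (L A b c) D) :
    ∃ ρ : BlindRule m, ∀ b ∈ U, ∀ c ∈ V,
      Solves ρ (L A b c) (10 * m ^ 2 * n * Nat.size m * D) := by
  by_cases hnm : n ≤ m
  swap
  · obtain ⟨ρ, h⟩ := solves_trivial (m := m) (n := n) (Or.inl hnm)
    exact ⟨ρ, fun b _ c _ => h _ _⟩
  rcases Nat.eq_zero_or_pos n with hn | hn
  · obtain ⟨ρ, h⟩ := solves_trivial (m := m) (n := n) (Or.inr hn)
    exact ⟨ρ, fun b _ c _ => h _ _⟩
  obtain ⟨G, H, hGU, hHV, hG, hH, hrep⟩ := exists_reps_pair A U V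
  obtain ⟨ρ, h⟩ := solves_core hU hV hD hGU hHV hrep
    (pow_card (by omega) (card_reps le_rfl hG)) (pow_card hn (card_reps hnm hH))
  exact ⟨ρ, fun b hb c hc => (h b hb c hc).mono (final_bound hn hnm D)⟩

/-- **Main theorem: only `c` unseen.** -/
theorem known_polyhedron (A : Matrix (Fin m) (Fin n) ℝ) (b : Fin m → ℝ) {V : Set (Fin n → ℝ)}
    (hV : Convex ℝ V) {D : ℕ} (hD : ∀ c ∈ V, Reach (L A b c) D) :
    ∃ ρ : BlindRule m, ∀ c ∈ V, Solves ρ (L A b c) (6 * n ^ 3 * Nat.size m * D) := by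
  by_cases hnm : n ≤ m
  swap
  · obtain ⟨ρ, h⟩ := solves_trivial (m := m) (n := n) (Or.inl hnm)
    exact ⟨ρ, fun c _ => h _ _⟩
  rcases Nat.eq_zero_or_pos n with hn | hn
  · obtain ⟨ρ, h⟩ := solves_trivial (m := m) (n := n) (Or.inr hn)
    exact ⟨ρ, fun c _ => h _ _⟩
  obtain ⟨G, H, hG, hHV, _, hH, hrep⟩ := exists_reps_pair A {b} V
  obtain ⟨ρ, h⟩ := solves_core (U := {b}) (V := V) (G := {b}) (H := H) (p := 1)
    (convex_singleton b) hV (D := D) (fun b' hb' c hc => by
      rw [Set.mem_singleton_iff.1 hb']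
      exact hD c hc) (by simp) hHV (fun b' hb' c hc => by
      obtain ⟨b'', hb'', c', hc', h⟩ := hrep b' hb' c hc
      exact ⟨b'', Finset.mem_singleton.2 (hG hb''), c', hc', h⟩) (by simp) (pow_card hn (card_reps hnm hH))
  exact ⟨ρ, fun c hc => (h b rfl c hc).mono (final_bound_one hn hnm D)⟩

end LP

end Pool.Agent.Simplex.Tableau
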