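import Mathlib

/-!
# Centerpoints of finite sets
-/

namespace Pool.Agent.MP4d246d.Known

/-- **Centerpoints.** In dimension `d` each finite set of points has a point in the convex hull of
each subset with more than `d / (d + 1)` of the points. -/
theorem exists_center {d : ℕ} (G : Finset (Fin d → ℝ)) (hG : G.Nonempty) :
    ∃ p ∈ convexHull ℝ (G : Set (Fin d → ℝ)), ∀ H ⊆ G, d * G.card < (d + 1) * H.card →
      p ∈ convexHull ℝ (H : Set (Fin d → ℝ)) := by
  classical
  set s : Finset (Finset (Fin d → ℝ)) :=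
    G.powerset.filter fun H => d * G.card < (d + 1) * H.card with hs
  have hmem : ∀ H, H ∈ s ↔ H ⊆ G ∧ d * G.card < (d + 1) * H.card := fun H => by
    rw [hs, Finset.mem_filter, Finset.mem_powerset]
  have hGpos : 0 < G.card := Finset.card_pos.2 hG
  have key := Convex.helly_theorem' (𝕜 := ℝ) (s := s)
    (F := fun H : Finset (Fin d → ℝ) => convexHull ℝ (H : Set (Fin d → ℝ)))
    (fun H _ => convex_convexHull ℝ _) (by
      intro I hI hcard
      rw [Module.finrank_fin_fun] at hcard
      obtain ⟨x, hx⟩ : ∃ x, ∀ H ∈ I, x ∈ H := by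
        by_contra hno
        push Not at hno
        have hcov : G ⊆ I.biUnion fun H => G \ H := by
          intro x hx
          obtain ⟨H, hH, hxH⟩ := hno x
          exact Finset.mem_biUnion.2 ⟨H, hH, Finset.mem_sdiff.2 ⟨hx, hxH⟩⟩
        have h1 := (Finset.card_le_card hcov).trans Finset.card_biUnion_le
        have h2 : ∀ H ∈ I, (d + 1) * (G \ H).card ≤ G.card - 1 := by
          intro H hH
          obtain ⟨h3, h4⟩ := (hmem H).1 (hI hH)
          have h5 := Finset.card_sdiff_add_card_eq_card h3
          have h6 : (d + 1) * (G \ H).card + (d + 1) * H.card = (d + 1) * G.card := by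
            rw [← Nat.mul_add, h5]
          have h7 : (d + 1) * G.card = d * G.card + G.card := by ring
          omega
        have h3 : (d + 1) * ∑ H ∈ I, (G \ H).card ≤ I.card * (G.card - 1) := by
          rw [Finset.mul_sum]
          exact Finset.sum_le_card_nsmul _ _ _ h2
        have h4 : I.card * (G.card - 1) ≤ (d + 1) * (G.card - 1) := Nat.mul_le_mul_right _ hcard
        have h5 : (d + 1) * G.card ≤ (d + 1) * (G.card - 1) :=
          (Nat.mul_le_mul_left _ h1).trans (h3.trans h4)
        have h6 := Nat.le_of_mul_le_mul_left h5 (Nat.succ_pos d)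
        omega
      exact ⟨x, Set.mem_iInter₂.2 fun H hH => subset_convexHull ℝ _ (by exact_mod_cast hx H hH)⟩)
  obtain ⟨p, hp⟩ := key
  have hp' : ∀ H ⊆ G, d * G.card < (d + 1) * H.card → p ∈ convexHull ℝ (H : Set (Fin d → ℝ)) :=
    fun H h1 h2 => Set.mem_iInter₂.1 hp H ((hmem H).2 ⟨h1, h2⟩)
  refine ⟨p, hp' G (Finset.Subset.refl _) ?_, hp'⟩
  exact Nat.mul_lt_mul_of_pos_right (Nat.lt_succ_self d) hGpos

end Pool.Agent.MP4d246d.Known
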